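import Pool.Agent.W973.SRR.Defs

/-! Project SRR (helper973), part VAL: the instances built by the reduction are valid. -/

set_option autoImplicit false

namespace Pool.Agent.W198.SRR

open Pool.Agent.W973.SRR Pool.Agent.NPC

theorem val (h1 : S_INV) (h2 : S_PRS) : S_VAL := by
  intro ψ hψ M hM
  have hl : (red ψ).1.length = 8 * ψ.length := by
    unfold red
    exact List.length_replicate
  rw [hl]
  have hM' : M = prs (8 * ψ.length) (mt ψ none) ∨
      ∃ j, M = prs (8 * ψ.length) (mt ψ (some (vv ψ j))) := by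
    unfold red at hM
    rcases List.mem_cons.1 hM with h | h
    · exact Or.inl h
    · obtain ⟨j, _, hj⟩ := List.mem_map.1 h
      exact Or.inr ⟨j, hj.symm⟩
  rcases hM' with h | ⟨j, h⟩
  · rw [h]
    exact (h2 _ _ (h1 ψ hψ none)).1
  · rw [h]
    exact (h2 _ _ (h1 ψ hψ (some (vv ψ j)))).1

end Pool.Agent.W198.SRR
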