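import Pool.Agent.W973.SRR.Defs2

/-! Project SRR (helper973), part VAL4: the instances with four matchings are valid. -/

set_option autoImplicit false

namespace Pool.Agent.W198.SRR

open Pool.Agent.W973.SRR Pool.Agent.NPC

theorem val4 (h1 : S4_INV) (h2 : S_PRS) : S4_VAL := by
  intro ψ hψ M hM
  have hl : (red4 ψ).1.length = 8 * ψ.length := by
    unfold red4
    exact List.length_replicate
  rw [hl]
  have hM' : ∃ o : Option ℕ, M = prs (8 * ψ.length) (mt4 ψ o) := by
    unfold red4 at hM
    simp only [List.mem_cons, List.not_mem_nil, or_false] at hM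
    rcases hM with h | h | h | h
    · exact ⟨none, h⟩
    · exact ⟨some 0, h⟩
    · exact ⟨some 1, h⟩
    · exact ⟨some 2, h⟩
  obtain ⟨o, h⟩ := hM'
  rw [h]
  exact (h2 _ _ (h1 ψ hψ o)).1

end Pool.Agent.W198.SRR
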